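import Pool.Agent.U231.PF.ImFin

/-!
# The image of the l-adic cycle class map for the products of an arbitrary variety with Fermat varieties

Let `k` be **any** field of positive characteristic `p`, let `ℓ` be a prime different from `p`, and let `Z` be **any** smooth
projective variety over `k`. Let `B ≥ 1` be a bound for the Betti numbers of `Z`. Let `X_i` be products of Fermat varieties
`x_0 ^ N_i + ⋯ + x_{n+1} ^ N_i = 0` over `k`, where `N_i` is a prime number which divides `p - 1`, and let the `N_i` be
different. Let `s_i` be the number of the coordinates used for `X_i`, so `s_i = n + 2` for one variety of dimension `n`, and
the sum of the numbers `n + 2` of the factors in general. Suppose for all `i` that `N_i > s_i B + 1`, or only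
that every odd divisor `m ≤ s_i` of `N_i - 1` satisfies `m B < N_i - 1`. Let `X_L` be the product of some of the `X_i` (each
taken once).

**Theorem.** The map `ι : Im cl ⊗ ℚ_ℓ → H_ℓ` in the codimension `r` is injective for `X_L × Z`
if and only if it is injective for `Z` in all codimensions `j` with `r - dim X_L ≤ j ≤ r`. So **the answer to Q1 is yes for
`X_L × Z` if and only if it is yes for `Z`.**

For instance it is yes for `X_L × Z` if `Z` is a surface, where it is known that homological and numerical equivalence
agree; this is not known for `X_L × Z` (in the literature), and nothing is assumed here about numerical equivalence on `X_L × Z`
or `Z`. More generally the theorem holds for all varieties `Z` for which the answer is known, for all primes `N_i` dividing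
`p - 1` which are not too small.

**The formal setting.** `E` is an algebraically closed field which contains `ℚ_ℓ`, and the cohomology has coefficients in `E`; classes
which are linearly independent over `ℚ_ℓ` are independent over `E`, so the injectivity of `ι` means that classes which are
linearly independent over `ℚ` are independent over `E` (`ImageInjective`), and this can be tested in each codimension. The
cohomology of a product is the tensor product (`prodOf`). `cl L r` is the set of the classes of the cycles of codimension
`r` with rational coefficients on `X_L × Z`.

The variety `Z` and finitely many cycles on `X_L × Z` whose classes span the space `E · Im cl` are defined over a finitely generated field, so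
they have good reduction at a closed point `t` of a model, with a residue field with `q` elements (every class in `Im cl` is the class of a cycle over
the algebraic closure of this finitely generated field). The normalized Frobenius, written as the action
of an element `φ` of a group (one can take the group `ℤ`), is on `H^m` the Frobenius at `t`, divided by `ρ ^ m`, where `ρ` is a square root of
`q`. It fixes `Im cl`. The function `v` is a `p`-adic valuation of `E` with `v(q) = 1`.

Let `X` be a Fermat variety of prime degree `N` and dimension `n`, where `N` divides `p - 1`. Its cohomology is the direct sum
of the lines spanned by the powers of the hyperplane class and of lines `V_a` in degree `n`, one for every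
`a = (a_0, …, a_{n+1})`, where the `a_j` are residues modulo `N` different from `0` with the sum `0`: the eigenspaces of the
group `μ_N ^ (n+2)`. The Frobenius acts on `V_a` by a Jacobi sum `j(a)`; an automorphism `σ` of the field `E` which raises the
roots of unity of order `N` to the power `c` maps `j(a)` to `j(c a)`; and by Stickelberger's theorem
`v(j(a)) = ∑ ⟨a_j / N⟩ - 1 = n / 2 + ∑ saw (a_j) / (2 N)` (up to the sign of `a`), with `saw (b) = 2 b - N` for `0 < b < N`. So
`α = j(a) / ρ ^ n` has the valuation `∑ saw (a_j) / (2 N)`, and the conjugates of `α ^ 2` are the squares for the characters `c a`.
If the multisets `a` and `-a` are equal, then `V_a` is spanned by the classes of linear subspaces (Ran, Shioda), which are defined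
over `k`. For products of Fermat varieties of the degree `N` one takes the tensor products of these lines, and the
multisets are added; if the multiset is symmetric, then the classes are algebraic by Shioda's inductive structure. This is
what `IsFermatFrob` says. The automorphisms of `E` act on the roots of unity of different prime orders independently. The space of algebraic classes on `X_i` is the
sum of the `V_a` with symmetric `a`, which is dual to itself, so there are cycles with rational coefficients whose classes
are a basis, and cycles which are a dual basis (`IsFactor`).

`HasFewConjugates φ B Z` says that for every eigenvalue `β` of `φ` on `H(Z)` the number `β ^ 2` has at most `B` conjugates (or is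
transcendental, which does not occur here). The number `β ^ 2` is `α ^ 2 / q ^ m`, where `α` is a root of the characteristic polynomial of
the Frobenius on `H^m(Z)`, which has integral coefficients; so one can take for `B` a bound for the Betti numbers of `Z`.

**The proof.** Let `y` be the class of a cycle on `X_1 × ⋯ × X_r × Z`, and suppose that it has a component different from `0`
for the characters `a_i` of the `X_i`, and that `a = a_1` is not symmetric. The contractions of this component with linear
forms are eigenvectors of `φ` on `H(Z)` with the eigenvalue `β = ∏ α_i ⁻¹`. The number `β ^ 2` has at most `B` conjugates. Now
choose automorphisms `g` of `E` with given `c_1 (g)` and with `c_i (g) = 1` for `i ≠ 1`. The conjugates `g (β ^ 2)` and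
`g' (β ^ 2)` are different, unless the functions `t ↦ S (t c_1(g))` and `t ↦ S (t c_1(g'))` are equal, where `S (t)` is the sum of
`saw` over the multiset `t a`, since the valuations of the conjugates of `β ^ 2` by the automorphisms `h g` are known. So the
stabilizer `H` of the function `t ↦ S (t)` in `(ℤ/N)ˣ` has index at most `B`. The function is the convolution of `saw` with the
odd part of the multiplicity function of `a`. Since the generalized Bernoulli numbers of the odd characters are different
from `0`, the odd part is determined by the convolution, and so it is invariant under `H`. It is not zero, since `a` is not
symmetric. So `-1` is not in `H`, the order `m` of `H` is an odd divisor of `N - 1`, and the support of `a` contains a coset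
of `H`, so `m ≤ s_1`. But `m B ≥ N - 1`, a contradiction. So only symmetric, algebraic characters occur, and
`y = ∑ a_l × y_l`, where the `a_l` are a basis of the space of algebraic classes on `X_1`, and `y_l` is the push-forward of the product
of `y` with a cycle on `X_1`, the dual of `a_l`. So the `y_l` are classes of cycles with rational coefficients on
`X_2 × ⋯ × X_r × Z`. If the map `ι` is injective there, then the coordinates of the `y_l`, for all `y` in a finite family, are rational with
respect to vectors which are independent over `E`, and the rank of a rational matrix does not change in `E`; so it is injective for
`X_1 × ⋯ × Z`. The theorem follows by induction; for the converse one multiplies cycles on `Z` with a cycle on `X_L`.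

helper231. The nonvanishing of the Bernoulli numbers is from the starting file `Pool.Agent.H916R2.Indep` (Mathlib has
Dirichlet's theorem on `L(1, χ)`).
-/

set_option autoImplicit false

namespace Pool.Agent.Results.MP_035963_ag.FermatTimesArbitrary

open Pool.Agent.Y95.ZT.S Pool.Agent.U231.HF Pool.Agent.U231.LT Pool.Agent.U231.PF

/-- **The injectivity of `Im cl ⊗ ℚ_ℓ → H_ℓ` for the products of an arbitrary variety with varieties of Fermat
type of different prime degrees.** -/
theorem result {E : Type} [Field E] [CharZero E] {Γ : Type} [Group Γ] (v : E → ℚ)
    (hv : IsValuation v) (φ : Γ) {ι : Type} (N s dim : ι → ℕ) (X : ι → Rp E Γ)
    (clX : ∀ i, ℕ → Set (X i).V) (fn : ∀ i, ℕ → Set ((X i).V →ₗ[E] E))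
    (hX : IsFermatFamily v φ N s dim X clX fn) (Z : Rp E Γ) (B : ℕ)
    (hZ : HasFewConjugates φ B Z) (hN : ∀ i, IsLarge (N i) (s i) B)
    (cl : ∀ L : List ι, ℕ → Set (prodOf X Z L).V) (hc : AreCycleClasses φ X Z clX fn cl)
    (L : List ι) (hL : L.Nodup) (r : ℕ) :
    ImageInjective cl L r ↔ ∀ j ≤ r, r ≤ j + (L.map dim).sum → ImageInjective cl [] j :=
  image_iff hv hX hZ hN hc L hL r

end Pool.Agent.Results.MP_035963_ag.FermatTimesArbitrary
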